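import Pool.Agent.Helper41.TS.Lucas

/-!
# The truncated hypergeometric sums in the characteristics two and three
-/

namespace Pool.Agent.Helper41.TS

variable {k : Type} [Field k] {t : k}

/-- characteristic two -/
theorem hyp_two [CharP k 2] (ht : t ≠ 1) {a b c : ℕ} (ha : a < 2) (hb : b < 2) (hc : c < 2) :
    hyp a b c t ≠ 0 := by
  have h1 : 1 - t ≠ 0 := sub_ne_zero.2 ht.symm
  interval_cases a
  · rw [hyp_zero]; exact one_ne_zero
  interval_cases b
  · rw [hyp_zero_mid]; exact one_ne_zero
  interval_cases c
  · rw [hyp_zero_right]; exact one_ne_zero
  have e : hyp 1 1 1 t = 1 - t := by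
    rw [hyp, Finset.sum_range_succ, Finset.sum_range_one]
    simp
    ring
  rw [e]
  exact h1

/-- characteristic three -/
theorem hyp_three [CharP k 3] (ht : t ≠ 1) (ht' : t ≠ -1) {a b c : ℕ} (ha : a < 3) (hb : b < 3)
    (hc : c < 3) : hyp a b c t ≠ 0 := by
  have h1 : 1 - t ≠ 0 := sub_ne_zero.2 ht.symm
  have h2 : 1 + t ≠ 0 := fun h => ht' (by linear_combination h)
  have h3 : (3 : k) = 0 := by exact_mod_cast CharP.cast_eq_zero k 3
  interval_cases a
  · rw [hyp_zero]; exact one_ne_zero
  · interval_cases b
    · rw [hyp_zero_mid]; exact one_ne_zero
    · interval_cases c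
      · rw [hyp_zero_right]; exact one_ne_zero
      · have e : hyp 1 1 1 t = 1 - t := by
          rw [hyp, Finset.sum_range_succ, Finset.sum_range_one]
          simp [Nat.choose]
          ring
        rw [e]; exact h1
      · have e : hyp 1 1 2 t = 1 + t := by
          rw [hyp, Finset.sum_range_succ, Finset.sum_range_one]
          simp [Nat.choose]
          linear_combination (-t) * h3
        rw [e]; exact h2
    · interval_cases c
      · rw [hyp_zero_right]; exact one_ne_zero
      · have e : hyp 1 2 1 t = 1 + t := by
          rw [hyp, Finset.sum_range_succ, Finset.sum_range_one]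
          simp [Nat.choose]
          linear_combination (-t) * h3
        rw [e]; exact h2
      · have e : hyp 1 2 2 t = 1 - t := by
          rw [hyp, Finset.sum_range_succ, Finset.sum_range_one]
          simp [Nat.choose]
          linear_combination (-t) * h3
        rw [e]; exact h1
  · interval_cases b
    · rw [hyp_zero_mid]; exact one_ne_zero
    · interval_cases c
      · rw [hyp_zero_right]; exact one_ne_zero
      · have e : hyp 2 1 1 t = 1 + t := by
          rw [hyp, Finset.sum_range_succ, Finset.sum_range_succ, Finset.sum_range_one]
          simp [Nat.choose]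
          linear_combination (-t) * h3
        rw [e]; exact h2
      · have e : hyp 2 1 2 t = 1 - t := by
          rw [hyp, Finset.sum_range_succ, Finset.sum_range_succ, Finset.sum_range_one]
          simp [Nat.choose]
          linear_combination (-t) * h3
        rw [e]; exact h1
    · interval_cases c
      · rw [hyp_zero_right]; exact one_ne_zero
      · have e : hyp 2 2 1 t = 1 - t := by
          rw [hyp, Finset.sum_range_succ, Finset.sum_range_succ, Finset.sum_range_one]
          simp [Nat.choose]
          linear_combination (-t) * h3
        rw [e]; exact h1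
      · have e : hyp 2 2 2 t = (1 - t) ^ 2 := by
          rw [hyp, Finset.sum_range_succ, Finset.sum_range_succ, Finset.sum_range_one]
          simp [Nat.choose]
          linear_combination (-2 * t) * h3
        rw [e]; exact pow_ne_zero _ h1

end Pool.Agent.Helper41.TS
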