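import Mathlib

/-!
# Truncated hypergeometric sums modulo `p` and the digits of their parameters
-/

namespace Pool.Agent.Helper41.TS

section

variable {K : Type*} [Field K]

/-- the sum of `C(a,k) C(b,k) C(c,k) (-t)^k` over `k < N` -/
def G (N a b c : ℕ) (t : K) : K :=
  ∑ k ∈ Finset.range N, ((a.choose k * b.choose k * c.choose k : ℕ) : K) * (-t) ^ k

/-- the sum of `C(a,k) C(b,k) C(c,k) (-t)^k` over `k ≤ a` -/
def hyp (a b c : ℕ) (t : K) : K :=
  ∑ k ∈ Finset.range (a + 1), ((a.choose k * b.choose k * c.choose k : ℕ) : K) * (-t) ^ k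

theorem G_eq_hyp {N a : ℕ} (h : a < N) (b c : ℕ) (t : K) : G N a b c t = hyp a b c t := by
  unfold G hyp
  symm
  apply Finset.sum_subset
  · intro k hk
    rw [Finset.mem_range] at hk ⊢
    omega
  · intro k _ hk
    rw [Finset.mem_range, not_lt] at hk
    rw [Nat.choose_eq_zero_of_lt (by omega), zero_mul, zero_mul, Nat.cast_zero, zero_mul]

theorem map_hyp {K' : Type*} [Field K'] (f : K →+* K') (a b c : ℕ) (t : K) :
    f (hyp a b c t) = hyp a b c (f t) := by
  unfold hyp
  rw [map_sum]
  refine Finset.sum_congr rfl fun k _ => ?_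
  rw [map_mul, map_natCast, map_pow, map_neg]

variable {p : ℕ} [Fact p.Prime] [CharP K p]

theorem lucas (a k : ℕ) : ((a.choose k : ℕ) : K) =
    (((a % p).choose (k % p) : ℕ) : K) * (((a / p).choose (k / p) : ℕ) : K) := by
  have h := Choose.choose_modEq_choose_mod_mul_choose_div_nat (n := a) (k := k) (p := p)
  rw [← Nat.cast_mul]
  exact (CharP.cast_eq_iff_mod_eq K p).2 h

/-- the first digits -/
theorem G_mul (N a b c : ℕ) (t : K) :
    G (p * N) a b c t = G p (a % p) (b % p) (c % p) t * G N (a / p) (b / p) (c / p) t ^ p := by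
  have hp : 0 < p := (Fact.out : p.Prime).pos
  have hfrob : G N (a / p) (b / p) (c / p) t ^ p = ∑ k ∈ Finset.range N,
      (((a / p).choose k * (b / p).choose k * (c / p).choose k : ℕ) : K) * (-t) ^ (p * k) := by
    have h1 : G N (a / p) (b / p) (c / p) t ^ p = frobenius K p (G N (a / p) (b / p) (c / p) t) :=
      rfl
    rw [h1, G, map_sum]
    refine Finset.sum_congr rfl fun k _ => ?_
    rw [map_mul, map_natCast, map_pow, frobenius_def, ← pow_mul]
  rw [hfrob]
  induction N with
  | zero => simp [G]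
  | succ N ih =>
    have e1 : G (p * (N + 1)) a b c t = G (p * N) a b c t + ∑ x ∈ Finset.range p,
        ((a.choose (p * N + x) * b.choose (p * N + x) * c.choose (p * N + x) : ℕ) : K) *
          (-t) ^ (p * N + x) := by
      unfold G
      rw [Nat.mul_succ, Finset.sum_range_add]
    have hfrob' : G N (a / p) (b / p) (c / p) t ^ p = ∑ k ∈ Finset.range N,
        (((a / p).choose k * (b / p).choose k * (c / p).choose k : ℕ) : K) * (-t) ^ (p * k) := by
      have h1 : G N (a / p) (b / p) (c / p) t ^ p = frobenius K p (G N (a / p) (b / p) (c / p) t) :=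
        rfl
      rw [h1, G, map_sum]
      refine Finset.sum_congr rfl fun k _ => ?_
      rw [map_mul, map_natCast, map_pow, frobenius_def, ← pow_mul]
    rw [e1, ih hfrob', Finset.sum_range_succ, mul_add]
    congr 1
    unfold G
    rw [Finset.sum_mul]
    refine Finset.sum_congr rfl fun x hx => ?_
    rw [Finset.mem_range] at hx
    have hm : (p * N + x) % p = x := by rw [Nat.mul_add_mod, Nat.mod_eq_of_lt hx]
    have hd : (p * N + x) / p = N := by
      rw [Nat.mul_add_div hp, Nat.div_eq_of_lt hx, add_zero]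
    have ha := lucas (K := K) (p := p) a (p * N + x)
    have hb := lucas (K := K) (p := p) b (p * N + x)
    have hc := lucas (K := K) (p := p) c (p * N + x)
    rw [hm, hd] at ha hb hc
    push_cast
    rw [ha, hb, hc, pow_add]
    ring

/-- the product over the digits -/
theorem hyp_mul (a b c : ℕ) (t : K) :
    hyp a b c t = hyp (a % p) (b % p) (c % p) t * hyp (a / p) (b / p) (c / p) t ^ p := by
  have hp : 0 < p := (Fact.out : p.Prime).pos
  have h1 : a < p * (a / p + 1) := Nat.lt_mul_div_succ a hp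
  rw [← G_eq_hyp h1, G_mul, G_eq_hyp (Nat.mod_lt a hp), G_eq_hyp (Nat.lt_succ_self _)]

omit [Fact p.Prime] [CharP K p] in
theorem hyp_zero (b c : ℕ) (t : K) : hyp 0 b c t = 1 := by
  simp [hyp]

omit [Fact p.Prime] [CharP K p] in
theorem hyp_zero_right (a b : ℕ) (t : K) : hyp a b 0 t = 1 := by
  unfold hyp
  rw [Finset.sum_eq_single 0]
  · simp
  · intro k _ hk
    rw [Nat.choose_eq_zero_of_lt (n := 0) (Nat.pos_of_ne_zero hk), mul_zero, Nat.cast_zero, zero_mul]
  · intro h
    exact absurd (Finset.mem_range.2 (Nat.succ_pos a)) h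

omit [Fact p.Prime] [CharP K p] in
theorem hyp_zero_mid (a c : ℕ) (t : K) : hyp a 0 c t = 1 := by
  unfold hyp
  rw [Finset.sum_eq_single 0]
  · simp
  · intro k _ hk
    rw [Nat.choose_eq_zero_of_lt (n := 0) (Nat.pos_of_ne_zero hk), mul_zero, zero_mul,
      Nat.cast_zero, zero_mul]
  · intro h
    exact absurd (Finset.mem_range.2 (Nat.succ_pos a)) h

/-- concatenation of digits -/
theorem hyp_concat (M : ℕ) {a b c : ℕ} (ha : a < p ^ M) (hb : b < p ^ M) (hc : c < p ^ M)
    (a' b' c' : ℕ) (t : K) : hyp (a + p ^ M * a') (b + p ^ M * b') (c + p ^ M * c') t =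
      hyp a b c t * hyp a' b' c' t ^ p ^ M := by
  have hp : 0 < p := (Fact.out : p.Prime).pos
  induction M generalizing a b c with
  | zero =>
    rw [pow_zero] at ha hb hc
    have h1 : a = 0 := by omega
    have h2 : b = 0 := by omega
    have h3 : c = 0 := by omega
    subst h1 h2 h3
    rw [hyp_zero, pow_zero]
    simp
  | succ M ih =>
    have h2 : ∀ x x' : ℕ, (x + p ^ (M + 1) * x') % p = x % p := by
      intro x x'
      rw [pow_succ', mul_assoc, Nat.add_mul_mod_self_left]
    have h3 : ∀ x x' : ℕ, (x + p ^ (M + 1) * x') / p = x / p + p ^ M * x' := by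
      intro x x'
      rw [pow_succ', mul_assoc, Nat.add_mul_div_left _ _ hp]
    have h4 : ∀ x, x < p ^ (M + 1) → x / p < p ^ M := by
      intro x hx
      rw [pow_succ] at hx
      exact (Nat.div_lt_iff_lt_mul hp).2 hx
    rw [hyp_mul (p := p), h2, h2, h2, h3, h3, h3, ih (h4 a ha) (h4 b hb) (h4 c hc), mul_pow,
      ← pow_mul, ← pow_succ, ← mul_assoc, ← hyp_mul]

/-- nonvanishing if the sums for the digits do not vanish -/
theorem hyp_ne_zero (M : ℕ) {a b c : ℕ} (ha : a < p ^ M) (t : K)
    (hg : ∀ j < M, hyp (a / p ^ j % p) (b / p ^ j % p) (c / p ^ j % p) t ≠ 0) :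
    hyp a b c t ≠ 0 := by
  have hp : 0 < p := (Fact.out : p.Prime).pos
  induction M generalizing a b c with
  | zero =>
    rw [pow_zero] at ha
    have h1 : a = 0 := by omega
    subst h1
    rw [hyp_zero]
    exact one_ne_zero
  | succ M ih =>
    rw [hyp_mul (p := p)]
    refine mul_ne_zero ?_ (pow_ne_zero _ ?_)
    · have := hg 0 (by omega)
      simpa using this
    · apply ih
      · rw [pow_succ] at ha
        exact (Nat.div_lt_iff_lt_mul hp).2 ha
      · intro j hj
        have := hg (j + 1) (by omega)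
        rwa [pow_succ', ← Nat.div_div_eq_div_mul, ← Nat.div_div_eq_div_mul,
          ← Nat.div_div_eq_div_mul] at this

end

end Pool.Agent.Helper41.TS
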