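import Pool.Agent.Helper41.TS.Lucas

/-!
# The sum over the points of `(1 - α x) (1 - β y) (1 - γ z) = t` over a finite field
-/

open Finset

namespace Pool.Agent.Helper41.TS

variable {K : Type} [Field K]

/-- the points of the surface `(1 - α x) (1 - β y) (1 - γ z) = t` -/
abbrev Pts (α β γ t : K) : Type :=
  {P : K × K × K // (1 - α * P.1) * (1 - β * P.2.1) * (1 - γ * P.2.2) = t}

/-- the parametrisation -/
noncomputable def param {α β γ t : K} (hα : α ≠ 0) (hβ : β ≠ 0) (hγ : γ ≠ 0) (ht : t ≠ 0) :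
    Pts α β γ t ≃ Kˣ × Kˣ where
  toFun P := (Units.mk0 (1 - α * P.1.1) (fun h => ht (by rw [← P.2, h, zero_mul, zero_mul])),
    Units.mk0 (1 - β * P.1.2.1) (fun h => ht (by rw [← P.2, h, mul_zero, zero_mul])))
  invFun Q := ⟨((1 - (Q.1 : K)) * α⁻¹, (1 - (Q.2 : K)) * β⁻¹,
    (1 - t * (Q.1 : K)⁻¹ * (Q.2 : K)⁻¹) * γ⁻¹), by
      have h1 := Q.1.ne_zero
      have h2 := Q.2.ne_zero
      field_simp
      ring⟩
  left_inv P := by
    obtain ⟨⟨x, y, z⟩, hP⟩ := P
    have hP' : (1 - α * x) * (1 - β * y) * (1 - γ * z) = t := hP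
    have h1 : 1 - α * x ≠ 0 := fun h => ht (by rw [← hP', h, zero_mul, zero_mul])
    have h2 : 1 - β * y ≠ 0 := fun h => ht (by rw [← hP', h, mul_zero, zero_mul])
    apply Subtype.ext
    simp only [Units.val_mk0, Prod.mk.injEq]
    refine ⟨?_, ?_, ?_⟩
    · field_simp
      ring
    · field_simp
      ring
    · rw [← hP']
      field_simp
      ring
  right_inv Q := by
    have h1 := Q.1.ne_zero
    have h2 := Q.2.ne_zero
    ext
    · simp only [Units.val_mk0]
      field_simp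
      ring
    · simp only [Units.val_mk0]
      field_simp
      ring

section

variable [Fintype K] [DecidableEq K]

theorem sum_zpow {j k : ℕ} (hj : j < Fintype.card K - 1) (hk : k < Fintype.card K - 1) :
    ∑ v : Kˣ, (v : K) ^ j * ((v : K)⁻¹) ^ k = if j = k then -1 else 0 := by
  have h1 : ∀ v : Kˣ, (v : K) ^ j * ((v : K)⁻¹) ^ k = (v : K) ^ (j + (Fintype.card K - 1 - k)) := by
    intro v
    have h2 : (v : K) ^ (Fintype.card K - 1) = 1 := FiniteField.pow_card_sub_one_eq_one _ v.ne_zero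
    have h3 : (v : K) ^ (Fintype.card K - 1 - k) * (v : K) ^ k = 1 := by
      rw [← pow_add, Nat.sub_add_cancel hk.le, h2]
    rw [pow_add, inv_pow, eq_inv_of_mul_eq_one_left h3]
  rw [Finset.sum_congr rfl fun v _ => h1 v, FiniteField.sum_pow_units]
  by_cases hjk : j = k
  · rw [if_pos hjk, if_pos]
    have : j + (Fintype.card K - 1 - k) = Fintype.card K - 1 := by omega
    rw [this]
  · rw [if_neg hjk, if_neg]
    rintro ⟨c, hc⟩
    rcases Nat.lt_or_ge c 1 with h | h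
    · have : c = 0 := by omega
      subst this
      omega
    · rcases Nat.lt_or_ge c 2 with h' | h'
      · have : c = 1 := by omega
        subst this
        omega
      · have h4 := Nat.mul_le_mul_left (Fintype.card K - 1) h'
        omega

theorem sum_two {N : ℕ} (hN : N ≤ Fintype.card K - 1) (f g : ℕ → K) :
    ∑ v : Kˣ, (∑ j ∈ range N, f j * (v : K) ^ j) * (∑ k ∈ range N, g k * ((v : K)⁻¹) ^ k) =
      - ∑ k ∈ range N, f k * g k := by
  have h1 : ∀ v : Kˣ, (∑ j ∈ range N, f j * (v : K) ^ j) * (∑ k ∈ range N, g k * ((v : K)⁻¹) ^ k) =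
      ∑ j ∈ range N, ∑ k ∈ range N, f j * g k * ((v : K) ^ j * ((v : K)⁻¹) ^ k) := by
    intro v
    rw [sum_mul_sum]
    refine sum_congr rfl fun j _ => sum_congr rfl fun k _ => ?_
    ring
  rw [sum_congr rfl fun v _ => h1 v, sum_comm]
  have h2 : ∀ j ∈ range N, ∑ v : Kˣ, ∑ k ∈ range N, f j * g k * ((v : K) ^ j * ((v : K)⁻¹) ^ k) =
      - (f j * g j) := by
    intro j hj
    rw [sum_comm]
    have h3 : ∀ k ∈ range N, ∑ v : Kˣ, f j * g k * ((v : K) ^ j * ((v : K)⁻¹) ^ k) =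
        if j = k then - (f j * g k) else 0 := by
      intro k hk
      rw [mem_range] at hj hk
      rw [← mul_sum, sum_zpow (by omega) (by omega)]
      split_ifs
      · ring
      · ring
    rw [sum_congr rfl h3, Finset.sum_ite_eq, if_pos hj]
  rw [sum_congr rfl h2, sum_neg_distrib]

theorem one_sub_pow (x : K) {A N : ℕ} (h : A < N) :
    (1 - x) ^ A = ∑ i ∈ range N, ((A.choose i : ℕ) : K) * (-1) ^ i * x ^ i := by
  have h1 : (1 - x) ^ A = ∑ i ∈ range (A + 1), ((A.choose i : ℕ) : K) * (-1) ^ i * x ^ i := by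
    rw [sub_eq_neg_add, add_pow]
    refine sum_congr rfl fun i _ => ?_
    rw [one_pow, mul_one, neg_pow]
    ring
  rw [h1]
  apply sum_subset
  · intro k hk
    rw [mem_range] at hk ⊢
    omega
  · intro k _ hk
    rw [mem_range, not_lt] at hk
    rw [Nat.choose_eq_zero_of_lt (by omega), Nat.cast_zero, zero_mul, zero_mul]

theorem sum_units {A B C : ℕ} (hA : A < Fintype.card K - 1) (hB : B < Fintype.card K - 1)
    (hC : C < Fintype.card K - 1) (t : K) :
    ∑ u : Kˣ, ∑ v : Kˣ, (1 - (u : K)) ^ A * (1 - (v : K)) ^ B *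
      (1 - t * (u : K)⁻¹ * (v : K)⁻¹) ^ C = hyp A B C t := by
  set N := Fintype.card K - 1 with hN
  have h1 : ∀ u : Kˣ, ∑ v : Kˣ, (1 - (u : K)) ^ A * (1 - (v : K)) ^ B *
      (1 - t * (u : K)⁻¹ * (v : K)⁻¹) ^ C = (∑ i ∈ range N, ((A.choose i : ℕ) : K) * (-1) ^ i *
        (u : K) ^ i) * ∑ k ∈ range N, (-(((B.choose k : ℕ) : K) * ((C.choose k : ℕ) : K) * t ^ k)) *
          ((u : K)⁻¹) ^ k := by
    intro u
    have h2 : ∀ v : Kˣ, (1 - (u : K)) ^ A * (1 - (v : K)) ^ B *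
        (1 - t * (u : K)⁻¹ * (v : K)⁻¹) ^ C = (1 - (u : K)) ^ A *
          ((∑ j ∈ range N, (((B.choose j : ℕ) : K) * (-1) ^ j) * (v : K) ^ j) *
            ∑ k ∈ range N, (((C.choose k : ℕ) : K) * (-1) ^ k * (t * (u : K)⁻¹) ^ k) *
              ((v : K)⁻¹) ^ k) := by
      intro v
      rw [one_sub_pow (v : K) hB, one_sub_pow (t * (u : K)⁻¹ * (v : K)⁻¹) hC, mul_assoc]
      congr 2
      refine sum_congr rfl fun k _ => ?_
      rw [mul_pow]
      ring
    rw [sum_congr rfl fun v _ => h2 v, ← mul_sum, sum_two le_rfl, one_sub_pow (u : K) hA,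
      ← sum_neg_distrib]
    congr 1
    refine sum_congr rfl fun k _ => ?_
    have h3 : ((-1 : K) ^ k) * (-1) ^ k = 1 := by rw [← mul_pow]; simp
    rw [mul_pow]
    linear_combination (-(((B.choose k : ℕ) : K) * ((C.choose k : ℕ) : K) * t ^ k *
      ((u : K)⁻¹) ^ k)) * h3
  rw [sum_congr rfl fun u _ => h1 u, sum_two le_rfl, ← G_eq_hyp hA, G, ← sum_neg_distrib]
  refine sum_congr rfl fun k _ => ?_
  rw [neg_pow t]
  push_cast
  ring

/-- the sum over the points of the surface -/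
theorem sum_points {α β γ t : K} (hα : α ≠ 0) (hβ : β ≠ 0) (hγ : γ ≠ 0) (ht : t ≠ 0)
    [Fintype (Pts α β γ t)] {A B C : ℕ} (hA : A < Fintype.card K - 1)
    (hB : B < Fintype.card K - 1) (hC : C < Fintype.card K - 1) :
    ∑ P : Pts α β γ t, P.1.1 ^ A * P.1.2.1 ^ B * P.1.2.2 ^ C =
      (α⁻¹) ^ A * (β⁻¹) ^ B * (γ⁻¹) ^ C * hyp A B C t := by
  rw [← sum_units hA hB hC t, ← Fintype.sum_equiv (param hα hβ hγ ht).symm
    (fun Q => ((param hα hβ hγ ht).symm Q).1.1 ^ A * ((param hα hβ hγ ht).symm Q).1.2.1 ^ B *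
      ((param hα hβ hγ ht).symm Q).1.2.2 ^ C) _ (fun Q => rfl), Fintype.sum_prod_type, mul_sum]
  refine sum_congr rfl fun u _ => ?_
  rw [mul_sum]
  refine sum_congr rfl fun v _ => ?_
  change ((1 - (u : K)) * α⁻¹) ^ A * ((1 - (v : K)) * β⁻¹) ^ B *
    ((1 - t * (u : K)⁻¹ * (v : K)⁻¹) * γ⁻¹) ^ C = _
  rw [mul_pow, mul_pow, mul_pow]
  ring

end

end Pool.Agent.Helper41.TS
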