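import Pool.Agent.Helper73.HD.Pair
import Pool.Agent.Helper73.HD.Place
import Pool.Agent.Helper73.HD.Sums
import Pool.Agent.Helper41.TS.Sums

/-!
# The residues of the sums of characters over the points of the surface
-/

open Module

namespace Pool.Agent.Helper41.TS

open Pool.Agent.Helper73.KT Pool.Agent.Helper73.HD

open Classical in
/-- the value of a character of the multiplicative group, extended by zero -/
noncomputable def ev {K L : Type} [Field K] [Field L] (χ : Kˣ →* Lˣ) (x : K) : L :=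
  if h : x = 0 then 0 else ((χ (Units.mk0 x h) : Lˣ) : L)

section ev

variable {L κ K₀ : Type} [Field L] [Field κ] [Field K₀] [Finite K₀]
    (φ : integralClosure ℤ L →+* κ) (ι : K₀ →+* κ)

omit [Finite K₀] in
theorem ev_zero (χ : K₀ˣ →* Lˣ) : ev χ 0 = 0 := by
  rw [ev, dif_pos rfl]

theorem int_ev (χ : K₀ˣ →* Lˣ) (x : K₀) : IsIntegral ℤ (ev χ x) := by
  rw [ev]
  split_ifs with h
  · exact isIntegral_zero
  · exact int_unit χ _

theorem res_ev {τ : K₀ˣ →* Lˣ} (hτ : ∀ u : K₀ˣ, res φ ((τ u : Lˣ) : L) = ι u) {D : ℕ}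
    (hD : 0 < D) (x : K₀) : res φ (ev (τ ^ D) x) = ι (x ^ D) := by
  by_cases h : x = 0
  · subst h
    rw [ev_zero, zero_pow hD.ne', map_zero]
    simpa using res_natCast φ 0
  · rw [ev, dif_neg h, MonoidHom.pow_apply, Units.val_pow_eq_pow_val, res_pow φ (int_unit τ _),
      hτ, Units.val_mk0, map_pow]

end ev

section sums

variable {L κ K₀ K : Type} [Field L] [Field κ] [Field K₀] [Fintype K₀] [Field K] [Fintype K]
    [Algebra K₀ K] (φ : integralClosure ℤ L →+* κ) (ι : K₀ →+* κ)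

/-- the residue of the sum over the points -/
theorem resid_points {α β γ t : K} (hα : α ≠ 0) (hβ : β ≠ 0) (hγ : γ ≠ 0) (ht : t ≠ 0)
    {E : ℕ} (hE : Fintype.card K - 1 = E * (Fintype.card K₀ - 1))
    {τ : K₀ˣ →* Lˣ} (hτ : ∀ u : K₀ˣ, res φ ((τ u : Lˣ) : L) = ι u) {A B C : ℕ}
    (hA : 0 < A) (hB : 0 < B) (hC : 0 < C) (hA' : A < Fintype.card K₀ - 1)
    (hB' : B < Fintype.card K₀ - 1) (hC' : C < Fintype.card K₀ - 1) {s : K₀}
    (hs : algebraMap K₀ K s =
      (α⁻¹) ^ (E * A) * (β⁻¹) ^ (E * B) * (γ⁻¹) ^ (E * C) * hyp (E * A) (E * B) (E * C) t) :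
    res φ (∑ᶠ P : Pts α β γ t, ev (τ ^ A) (Algebra.norm K₀ P.1.1) *
      ev (τ ^ B) (Algebra.norm K₀ P.1.2.1) * ev (τ ^ C) (Algebra.norm K₀ P.1.2.2)) = ι s := by
  classical
  have : Fintype (Pts α β γ t) := Fintype.ofFinite _
  have hK : 1 < Fintype.card K := Fintype.one_lt_card
  have hE0 : 0 < E := by
    rcases Nat.eq_zero_or_pos E with h | h
    · rw [h, zero_mul] at hE
      omega
    · exact h
  rw [finsum_eq_sum_of_fintype, res_sum φ _ _ (fun P _ =>
    ((int_ev _ _).mul (int_ev _ _)).mul (int_ev _ _))]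
  have h1 : ∀ P : Pts α β γ t, res φ (ev (τ ^ A) (Algebra.norm K₀ P.1.1) *
      ev (τ ^ B) (Algebra.norm K₀ P.1.2.1) * ev (τ ^ C) (Algebra.norm K₀ P.1.2.2)) =
      ι ((Algebra.norm K₀ P.1.1) ^ A * (Algebra.norm K₀ P.1.2.1) ^ B *
        (Algebra.norm K₀ P.1.2.2) ^ C) := by
    intro P
    rw [res_mul φ ((int_ev _ _).mul (int_ev _ _)) (int_ev _ _),
      res_mul φ (int_ev _ _) (int_ev _ _), res_ev φ ι hτ hA, res_ev φ ι hτ hB, res_ev φ ι hτ hC,
      map_mul, map_mul]
  rw [Finset.sum_congr rfl fun P _ => h1 P, ← map_sum]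
  congr 1
  apply (algebraMap K₀ K).injective
  rw [hs, map_sum]
  have hnorm : ∀ x : K, algebraMap K₀ K (Algebra.norm K₀ x) = x ^ E := by
    intro x
    rw [FiniteField.algebraMap_norm_eq_pow (K := K₀) (K' := K) (x := x)]
    congr 1
    rw [Nat.card_eq_fintype_card, Nat.card_eq_fintype_card, hE,
      Nat.mul_div_cancel _ (by omega)]
  have hlt : ∀ D, D < Fintype.card K₀ - 1 → E * D < Fintype.card K - 1 := by
    intro D hD
    rw [hE]
    exact Nat.mul_lt_mul_of_pos_left hD hE0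
  rw [← sum_points hα hβ hγ ht (hlt A hA') (hlt B hB') (hlt C hC')]
  refine Finset.sum_congr rfl fun P _ => ?_
  rw [map_mul, map_mul, map_pow, map_pow, map_pow, hnorm, hnorm, hnorm, ← pow_mul, ← pow_mul,
    ← pow_mul]

end sums

section core

variable {L κ : Type} [Field L] [CharZero L] [IsAlgClosed L] [Field κ]
    (φ : integralClosure ℤ L →+* κ) {W W' : Type*} [AddCommGroup W] [Module L W]
    [FiniteDimensional L W] [AddCommGroup W'] [Module L W'] [FiniteDimensional L W']

/-- two dual parts of dimension at most three with a unit eigenvalue each: all eigenvalues are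
simple -/
theorem core_simple {T : End L W} {T' : End L W'} {b : W →ₗ[L] W' →ₗ[L] L}
    {b' : W' →ₗ[L] W →ₗ[L] L} {Q : L} (hQ0 : Q ≠ 0)
    (hQ : res φ Q = 0)
    (hb : ∀ x y, b (T x) (T' y) = Q * b x y) (hnd : ∀ x, (∀ y, b x y = 0) → x = 0)
    (hb' : ∀ x y, b' (T' x) (T y) = Q * b' x y) (hnd' : ∀ x, (∀ y, b' x y = 0) → x = 0)
    (hinj : Function.Injective T) (hinj' : Function.Injective T')
    (hint : ∀ c ∈ eigs T, IsIntegral ℤ c) (hint' : ∀ c ∈ eigs T', IsIntegral ℤ c)
    (hdim : finrank L W ≤ 3) (hdim' : finrank L W' ≤ 3)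
    (h1 : res φ (LinearMap.trace L W T) ≠ 0)
    (h2 : res φ (LinearMap.trace L W (T ^ 2)) = res φ (LinearMap.trace L W T) ^ 2)
    (h1' : res φ (LinearMap.trace L W' T') ≠ 0)
    (h2' : res φ (LinearMap.trace L W' (T' ^ 2)) = res φ (LinearMap.trace L W' T') ^ 2)
    (a : L) : mult T a ≤ 1 := by
  classical
  by_contra hv
  have ha2 : 2 ≤ mult T a := by omega
  have hae : a ∈ eigs T := mem_of_mult (by omega)
  obtain ⟨u, hu, hru⟩ := exists_unit_eig φ hint h1
  obtain ⟨u', hu', hru'⟩ := exists_unit_eig φ hint' h1'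
  have hu0 := ne_zero_of_mem hinj hu
  have hu0' := ne_zero_of_mem hinj' hu'
  have ha0 := ne_zero_of_mem hinj hae
  have hwm : Q / u' ∈ eigs T := mem_of_mult ((one_le_mult hu').trans (mult_le hb' hnd' hu0'))
  have hwm' : Q / u ∈ eigs T' := mem_of_mult ((one_le_mult hu).trans (mult_le hb hnd hu0))
  have hw0 : res φ (Q / u') = 0 := res_div φ hQ (hint' u' hu') (hint _ hwm) hu0' hru'
  have hw0' : res φ (Q / u) = 0 := res_div φ hQ (hint u hu) (hint' _ hwm') hu0 hru
  by_cases hau : a = u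
  · subst hau
    exact no_double φ hint hdim h1 h2 ha2 hwm hru hw0
  by_cases haw : a = Q / u'
  · have h3 : 2 ≤ mult T' u' := by
      have h4 := mult_le hb hnd ha0
      rw [haw, div_div_cancel₀ hQ0] at h4
      rw [haw] at ha2
      omega
    exact no_double φ hint' hdim' h1' h2' h3 hwm' hru' hw0'
  · have huw : u ≠ Q / u' := by
      intro h
      rw [h] at hru
      exact hru hw0
    have hsub : ({a, u, Q / u'} : Finset L) ⊆ eigs T := by
      intro y hy
      rw [Finset.mem_insert, Finset.mem_insert, Finset.mem_singleton] at hy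
      rcases hy with rfl | rfl | rfl
      · exact hae
      · exact hu
      · exact hwm
    have h3 : ∑ c ∈ ({a, u, Q / u'} : Finset L), mult T c ≤ ∑ c ∈ eigs T, mult T c :=
      Finset.sum_le_sum_of_subset hsub
    rw [Finset.sum_insert (by
      rw [Finset.mem_insert, Finset.mem_singleton]
      push Not
      exact ⟨hau, haw⟩), Finset.sum_pair huw, sum_mult T] at h3
    have := one_le_mult hu
    have := one_le_mult hwm
    omega

end core

end Pool.Agent.Helper41.TS
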